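import Pool.Agent.X98.GP.Grid
import Pool.Agent.X98.KZ.Fin

set_option autoImplicit false
set_option linter.unusedSectionVars false

/-!
# Finitely many points decide on the p-curvature of an integrable connection
-/

namespace Pool.Agent.X98.GP

open Pool.Agent.X98.KZ MvPolynomial

universe u v

variable {ι : Type*} [Fintype ι] [DecidableEq ι] {r : Type*} [Fintype r] [DecidableEq r]

/-! ### Base change -/

lemma mcurv_map {k k' : Type*} [CommRing k] [CommRing k'] (φ : k →+* k') (i : ι)
    (T : MvPolynomial ι k) (N : Matrix r r (MvPolynomial ι k)) (j : ℕ) :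
    mcurv i (MvPolynomial.map φ T) (N.map (MvPolynomial.map φ)) j =
      (mcurv i T N j).map (MvPolynomial.map φ) := by
  induction j with
  | zero => rw [mcurv, mcurv, Matrix.map_one _ (map_zero _) (map_one _)]
  | succ j ih =>
    rw [mcurv, mcurv, ih]
    have h1 : (T • (mcurv i T N j).map (pderiv i) - ((j : MvPolynomial ι k) * pderiv i T) •
        mcurv i T N j - N * mcurv i T N j).map (MvPolynomial.map φ) =
        (T • (mcurv i T N j).map (pderiv i)).map (MvPolynomial.map φ) -
        (((j : MvPolynomial ι k) * pderiv i T) • mcurv i T N j).map (MvPolynomial.map φ) -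
        (N * mcurv i T N j).map (MvPolynomial.map φ) := by
      ext1 x y
      simp only [Matrix.map_apply, Matrix.sub_apply, map_sub]
    rw [h1, Matrix.map_mul]
    congr 1
    congr 1
    · ext1 x y
      simp only [Matrix.map_apply, Matrix.smul_apply, smul_eq_mul, map_mul, pderiv_map]
    · ext1 x y
      simp only [Matrix.map_apply, Matrix.smul_apply, smul_eq_mul, map_mul, pderiv_map, map_natCast]

lemma Flat.map {k k' : Type*} [CommRing k] [CommRing k'] (φ : k →+* k')
    {T : ι → MvPolynomial ι k} {N : ι → Matrix r r (MvPolynomial ι k)} {i l : ι}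
    (h : Flat T N i l) : Flat (fun j => MvPolynomial.map φ (T j))
      (fun j => (N j).map (MvPolynomial.map φ)) i l := by
  unfold Flat at h ⊢
  rw [← Matrix.map_mul, ← Matrix.map_mul]
  ext1 x y
  have h1 := congrArg (MvPolynomial.map φ) (congrFun (congrFun h x) y)
  simp only [Matrix.map_apply, Matrix.sub_apply, Matrix.smul_apply, smul_eq_mul, map_mul, map_sub,
    map_pow, pderiv_map] at h1 ⊢
  exact h1

/-! ### The determinant of a horizontal matrix -/

/-- The ring homomorphism defined by a derivation. -/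
noncomputable def dualHom {k S : Type*} [CommRing k] [CommRing S] [Algebra k S]
    (D : Derivation k S S) : S →+* DualNumber S where
  toFun f := TrivSqZeroExt.inl f + TrivSqZeroExt.inr (D f)
  map_one' := by
    rw [Derivation.map_one_eq_zero, TrivSqZeroExt.inr_zero, add_zero]
    rfl
  map_mul' f g := by
    ext
    · simp
    · simp
      ring
  map_zero' := by
    ext
    · simp
    · simp
  map_add' f g := by
    ext
    · simp
    · simp

lemma det_horizontal {k S : Type*} [CommRing k] [CommRing S] [Algebra k S]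
    (D : Derivation k S S) (N M : Matrix r r S) (h : M.map D = N * M - M * N) : D M.det = 0 := by
  set φ := dualHom D with hφ
  set ι' : S →+* DualNumber S := TrivSqZeroExt.inlHom S S with hι
  have heps : (DualNumber.eps : DualNumber S) * DualNumber.eps = 0 := DualNumber.eps_mul_eps
  have h1 : M.map φ = (1 + (DualNumber.eps : DualNumber S) • N.map ι') * M.map ι' *
      (1 - (DualNumber.eps : DualNumber S) • N.map ι') := by
    have h2 : M.map φ = M.map ι' + (DualNumber.eps : DualNumber S) • (M.map D).map ι' := by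
      ext1 a b
      simp only [Matrix.map_apply, Matrix.add_apply, Matrix.smul_apply, smul_eq_mul]
      ext
      · simp [hφ, dualHom, hι]
      · simp [hφ, dualHom, hι]
    have h3 : (M.map D).map ι' = N.map ι' * M.map ι' - M.map ι' * N.map ι' := by
      rw [h]
      ext1 a b
      rw [Matrix.map_apply, Matrix.sub_apply, map_sub, Matrix.sub_apply, ← Matrix.map_mul,
        ← Matrix.map_mul]
      rfl
    rw [h2, h3, add_mul, one_mul, mul_sub, mul_one, add_mul, smul_mul_assoc, smul_mul_assoc,
      mul_smul_comm, mul_smul_comm, smul_smul, heps, zero_smul, smul_sub]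
    abel
  have h4 : (M.map φ).det = (M.map ι').det := by
    rw [h1, Matrix.det_mul, Matrix.det_mul, mul_right_comm, ← Matrix.det_mul]
    have h5 : (1 + (DualNumber.eps : DualNumber S) • N.map ι') *
        (1 - (DualNumber.eps : DualNumber S) • N.map ι') = 1 := by
      rw [add_mul, one_mul, mul_sub, mul_one, smul_mul_smul_comm, heps, zero_smul]
      abel
    rw [h5, Matrix.det_one, one_mul]
  have h6 : (M.map φ).det = φ M.det := (RingHom.map_det φ M).symm
  have h7 : (M.map ι').det = ι' M.det := (RingHom.map_det ι' M).symm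
  rw [h6, h7] at h4
  have h8 := congrArg TrivSqZeroExt.snd h4
  simpa [hφ, dualHom, hι] using h8

lemma degreeOf_det {k : Type*} [CommRing k] (l : ι) (M : Matrix r r (MvPolynomial ι k)) (d : ℕ)
    (h : ∀ a b, degreeOf l (M a b) ≤ d) : degreeOf l M.det ≤ Fintype.card r * d := by
  rw [Matrix.det_apply]
  refine (degreeOf_sum_le _ _ _).trans (Finset.sup_le fun σ _ => ?_)
  have h1 : degreeOf l (Equiv.Perm.sign σ • ∏ i, M (σ i) i) ≤ degreeOf l (∏ i, M (σ i) i) := by
    rcases Int.units_eq_one_or (Equiv.Perm.sign σ) with h2 | h2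
    · rw [h2, one_smul]
    · rw [h2]
      have : degreeOf l ((-1 : ℤˣ) • ∏ i, M (σ i) i) = degreeOf l (∏ i, M (σ i) i) := by
        rw [Units.neg_smul, one_smul, degreeOf_eq_sup, degreeOf_eq_sup, support_neg]
      rw [this]
  refine h1.trans ((degreeOf_prod_le _ _ _).trans ?_)
  refine (Finset.sum_le_sum fun i _ => h _ _).trans ?_
  rw [Finset.sum_const, Finset.card_univ, smul_eq_mul]

/-- The nilpotent version of the polynomial statement. -/
theorem grid_nilp {K : Type*} [Field K] [Infinite K] {p : ℕ} (hp : p.Prime) [CharP K p]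
    (T : ι → MvPolynomial ι K) (N : ι → Matrix r r (MvPolynomial ι K))
    (Q : Matrix r r (MvPolynomial ι K))
    (hor : ∀ l, T l • Q.map (pderiv l) = N l * Q - Q * N l) (δ : ι → ℕ)
    (hdeg : ∀ l a b, degreeOf l (Q a b) ≤ p * δ l) (Z : ι → Finset K)
    (hZ : ∀ l, Fintype.card r * δ l < (Z l).card)
    (hT : ∀ z : ι → K, (∀ l, z l ∈ Z l) → ∀ l, eval z (T l) ≠ 0)
    (h0 : ∀ z : ι → K, (∀ l, z l ∈ Z l) → IsNilpotent (Q.map (eval z))) : IsNilpotent Q := by
  have key : ∀ c : K, (Matrix.scalar r (C c : MvPolynomial ι K) - Q).det =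
      (C c : MvPolynomial ι K) ^ Fintype.card r := by
    intro c
    set f : MvPolynomial ι K := (Matrix.scalar r (C c : MvPolynomial ι K) - Q).det -
      C c ^ Fintype.card r with hf
    have h1 : (Matrix.of fun (_ _ : Unit) => f) = (0 : Matrix Unit Unit (MvPolynomial ι K)) := by
      refine grid (r := Unit) hp T (fun _ => 0) _ (fun l => ?_) (fun l => Fintype.card r * δ l)
        (fun l _ _ => ?_) Z hZ hT (fun z hz _ _ => ?_)
      · rw [zero_mul, mul_zero, sub_zero]
        ext1 a b
        rw [Matrix.smul_apply, Matrix.map_apply, Matrix.of_apply, smul_eq_mul, Matrix.zero_apply,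
          hf, map_sub]
        have h2 : pderiv l (C c ^ Fintype.card r : MvPolynomial ι K) = 0 := by
          rw [← C_pow, pderiv_C]
        rw [h2, sub_zero]
        set D' : Derivation K (MvPolynomial ι K) (MvPolynomial ι K) := T l • pderiv l with hD'
        have h3 := det_horizontal D' (N l)
          (Matrix.scalar r (C c : MvPolynomial ι K) - Q) (by
            have h4 : (Matrix.scalar r (C c : MvPolynomial ι K) - Q).map D' =
                -(T l • Q.map (pderiv l)) := by
              ext1 x y
              rw [Matrix.map_apply, Matrix.sub_apply, hD', Derivation.smul_apply, map_sub,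
                Matrix.scalar_apply, Matrix.diagonal_apply, Matrix.neg_apply, Matrix.smul_apply,
                Matrix.map_apply]
              split_ifs <;> simp
            rw [h4, hor l, mul_sub, sub_mul]
            have h5 : N l * Matrix.scalar r (C c : MvPolynomial ι K) =
                Matrix.scalar r (C c : MvPolynomial ι K) * N l :=
              (Matrix.scalar_commute (C c : MvPolynomial ι K) (fun r' => Commute.all _ r')
                (N l)).eq.symm
            rw [h5]
            abel)
        rw [hD', Derivation.smul_apply, smul_eq_mul] at h3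
        exact h3
      · rw [Matrix.of_apply, hf, sub_eq_add_neg]
        refine (degreeOf_add_le _ _ _).trans (max_le ?_ ?_)
        · refine (degreeOf_det l _ (p * δ l) fun a b => ?_).trans (le_of_eq (by ring))
          rw [Matrix.sub_apply, sub_eq_add_neg]
          refine (degreeOf_add_le _ _ _).trans (max_le ?_ ?_)
          · rw [Matrix.scalar_apply, Matrix.diagonal_apply]
            split_ifs
            · rw [degreeOf_C]; exact Nat.zero_le _
            · rw [degreeOf_zero]; exact Nat.zero_le _
          · have : degreeOf l (-Q a b) = degreeOf l (Q a b) := by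
              rw [degreeOf_eq_sup, degreeOf_eq_sup, support_neg]
            rw [this]
            exact hdeg l a b
        · have : degreeOf l (-(C c ^ Fintype.card r : MvPolynomial ι K)) = 0 := by
            rw [← C_pow, ← C_neg, degreeOf_C]
          rw [this]
          exact Nat.zero_le _
      · rw [Matrix.of_apply, hf, map_sub, map_pow, eval_C]
        have h2 : eval z (Matrix.scalar r (C c : MvPolynomial ι K) - Q).det =
            (Matrix.scalar r c - Q.map (eval z)).det := by
          rw [RingHom.map_det]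
          congr 1
          ext1 x y
          rw [RingHom.mapMatrix_apply, Matrix.map_apply, Matrix.sub_apply, Matrix.sub_apply,
            map_sub, Matrix.map_apply, Matrix.scalar_apply, Matrix.scalar_apply,
            Matrix.diagonal_apply, Matrix.diagonal_apply]
          split_ifs <;> simp
        rw [h2]
        have h3 : (Matrix.scalar r c - Q.map (eval z)).det = ((Q.map (eval z)).charpoly).eval c :=
          (Matrix.eval_charpoly _ _).symm
        have h4 : (Q.map (eval z)).charpoly = Polynomial.X ^ Fintype.card r :=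
          sub_eq_zero.mp (Matrix.isNilpotent_charpoly_sub_pow_of_isNilpotent (h0 z hz)).eq_zero
        rw [h3, h4, Polynomial.eval_pow, Polynomial.eval_X, sub_self]
    have h2 := congrFun (congrFun h1 ()) ()
    rw [Matrix.of_apply, Matrix.zero_apply, hf, sub_eq_zero] at h2
    exact h2
  have hcp : Q.charpoly = Polynomial.X ^ Fintype.card r := by
    rw [← sub_eq_zero]
    have hinf : Function.Injective fun c : K => (C c : MvPolynomial ι K) := C_injective _ _
    apply Polynomial.eq_zero_of_infinite_isRoot
    refine Set.infinite_of_injective_forall_mem hinf fun c => ?_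
    show (Q.charpoly - Polynomial.X ^ Fintype.card r).eval (C c) = 0
    rw [Polynomial.eval_sub, Matrix.eval_charpoly, key c, Polynomial.eval_pow, Polynomial.eval_X,
      sub_self]
  exact ⟨Fintype.card r, by
    have := Matrix.aeval_self_charpoly Q
    rwa [hcp, map_pow, Polynomial.aeval_X] at this⟩

/-- The local statement at a homomorphism to a field. -/
theorem loc {R : Type*} [CommRing R] {K : Type*} [Field K] [Infinite K] {p : ℕ} (hp : p.Prime)
    [CharP K p] (φ : R →+* K) (T : ι → MvPolynomial ι R) (N : ι → Matrix r r (MvPolynomial ι R))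
    (i : ι) (hflat : ∀ l, Flat T N i l) (δ : ι → ℕ)
    (hTd : ∀ l, degreeOf l (T i) ≤ δ l + if l = i then 1 else 0)
    (hNd : ∀ l a b, degreeOf l (N i a b) ≤ δ l) (Z : ι → Finset R)
    (hinj : ∀ l, Set.InjOn φ (Z l))
    (hT : ∀ z : ι → R, (∀ l, z l ∈ Z l) → ∀ l, φ (eval z (T l)) ≠ 0) :
    ((∀ l, δ l < (Z l).card) →
      (∀ z : ι → R, (∀ l, z l ∈ Z l) →
        (mcurv i (T i) (N i) p).map (fun f => φ (eval z f)) = 0) →
      (mcurv i (T i) (N i) p).map (MvPolynomial.map φ) = 0) ∧
    ((∀ l, Fintype.card r * δ l < (Z l).card) →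
      (∀ z : ι → R, (∀ l, z l ∈ Z l) →
        IsNilpotent ((mcurv i (T i) (N i) p).map (fun f => φ (eval z f)))) →
      IsNilpotent ((mcurv i (T i) (N i) p).map (MvPolynomial.map φ))) := by
  classical
  set T' : ι → MvPolynomial ι K := fun j => MvPolynomial.map φ (T j) with hT'
  set N' : ι → Matrix r r (MvPolynomial ι K) := fun j => (N j).map (MvPolynomial.map φ) with hN'
  set Z' : ι → Finset K := fun l => (Z l).image φ with hZ'
  have hcard : ∀ l, (Z' l).card = (Z l).card := fun l => Finset.card_image_of_injOn (hinj l)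
  have hev : ∀ (z : ι → R) (f : MvPolynomial ι R),
      eval (fun l => φ (z l)) (MvPolynomial.map φ f) = φ (eval z f) := by
    intro z f
    rw [eval_map]
    exact (eval₂_comp_left φ (RingHom.id R) z f).symm
  have hlift : ∀ z : ι → K, (∀ l, z l ∈ Z' l) → ∃ z' : ι → R, (∀ l, z' l ∈ Z l) ∧
      z = fun l => φ (z' l) := by
    intro z hz
    choose z' hz' hz'' using fun l => Finset.mem_image.mp (hz l)
    exact ⟨z', hz', funext fun l => (hz'' l).symm⟩
  have hTz : ∀ z : ι → K, (∀ l, z l ∈ Z' l) → ∀ l, eval z (T' l) ≠ 0 := by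
    intro z hz l
    obtain ⟨z', hz', rfl⟩ := hlift z hz
    rw [hev]
    exact hT z' hz' l
  have hmc : (mcurv i (T i) (N i) p).map (MvPolynomial.map φ) = mcurv i (T' i) (N' i) p :=
    (mcurv_map φ i (T i) (N i) p).symm
  have hmz : ∀ z' : ι → R, (mcurv i (T' i) (N' i) p).map (eval fun l => φ (z' l)) =
      (mcurv i (T i) (N i) p).map (fun f => φ (eval z' f)) := by
    intro z'
    rw [← hmc]
    ext1 x y
    simp only [Matrix.map_apply]
    exact hev _ _
  have hdm : ∀ l (f : MvPolynomial ι R), degreeOf l (MvPolynomial.map φ f) ≤ degreeOf l f := by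
    intro l f
    rw [degreeOf_le_iff]
    intro m hm
    exact (degreeOf_le_iff (n := l)).mp le_rfl m (support_map_subset _ _ hm)
  have hdeg : ∀ l a b, degreeOf l (mcurv i (T' i) (N' i) p a b) ≤ p * δ l := fun l a b =>
    degree_mcurv i l _ _ _ ((hdm l _).trans (hTd l)) (fun a b => (hdm l _).trans (hNd l a b)) p a b
  have hor : (∀ l, (Z l).Nonempty) → ∀ l, T' l • (mcurv i (T' i) (N' i) p).map (pderiv l) =
      N' l * mcurv i (T' i) (N' i) p - mcurv i (T' i) (N' i) p * N' l := by
    intro hne l
    choose z hz using hne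
    exact horiz_mv hp T' N' i l ((hflat l).map φ) (fun l => φ (z l))
      (by rw [hev]; exact hT z hz i) (by rw [hev]; exact hT z hz l)
  refine ⟨fun hc h => ?_, fun hc h => ?_⟩
  · rw [hmc]
    refine grid hp T' N' _ (hor fun l => Finset.card_pos.mp (by have := hc l; omega)) δ hdeg Z'
      (fun l => by rw [hcard]; exact hc l) hTz ?_
    intro z hz a b
    obtain ⟨z', hz', rfl⟩ := hlift z hz
    have h1 := congrFun (congrFun (h z' hz') a) b
    rw [← hmz] at h1
    exact h1
  · rw [hmc]
    refine grid_nilp hp T' N' _ (hor fun l => Finset.card_pos.mp (by have := hc l; omega)) δ hdeg Z'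
      (fun l => by rw [hcard]; exact hc l) hTz ?_
    intro z hz
    obtain ⟨z', hz', rfl⟩ := hlift z hz
    have h1 := h z' hz'
    rw [← hmz] at h1
    exact h1

/-- The global statement. -/
theorem main {R : Type u} [CommRing R] [IsDomain R] {ι : Type v} [Fintype ι] [DecidableEq ι]
    {n : ℕ} (T : ι → MvPolynomial ι R) (N : ι → Matrix (Fin n) (Fin n) (MvPolynomial ι R))
    (i : ι) (hflat : ∀ l, Flat T N i l) (δ : ι → ℕ)
    (hTd : ∀ l, degreeOf l (T i) ≤ δ l + if l = i then 1 else 0)
    (hNd : ∀ l a b, degreeOf l (N i a b) ≤ δ l) (Z : ι → Finset R)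
    (hT : ∀ z : ι → R, (∀ l, z l ∈ Z l) → ∀ l, eval z (T l) ≠ 0) :
    AlmostAll R (fun 𝔪 p =>
      ((∀ l, δ l < (Z l).card) →
        (∀ z : ι → R, (∀ l, z l ∈ Z l) →
          (mcurv i (T i) (N i) p).map (fun f => Ideal.Quotient.mk 𝔪 (eval z f)) = 0) →
        (mcurv i (T i) (N i) p).map (MvPolynomial.map (Ideal.Quotient.mk 𝔪)) = 0) ∧
      ((∀ l, n * δ l < (Z l).card) →
        (∀ z : ι → R, (∀ l, z l ∈ Z l) →
          IsNilpotent ((mcurv i (T i) (N i) p).map (fun f => Ideal.Quotient.mk 𝔪 (eval z f)))) →
        IsNilpotent ((mcurv i (T i) (N i) p).map (MvPolynomial.map (Ideal.Quotient.mk 𝔪))))) := by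
  classical
  set S : Finset (ι → R) := Fintype.piFinset Z with hS
  set g₁ : R := ∏ z ∈ S, ∏ l, eval z (T l) with hg₁
  set g₂ : R := ∏ l, ∏ st ∈ (Z l).offDiag, (st.1 - st.2) with hg₂
  have h1 : g₁ ≠ 0 := by
    rw [hg₁, Finset.prod_ne_zero_iff]
    intro z hz
    rw [hS, Fintype.mem_piFinset] at hz
    exact Finset.prod_ne_zero_iff.mpr fun l _ => hT z hz l
  have h2 : g₂ ≠ 0 := by
    rw [hg₂, Finset.prod_ne_zero_iff]
    intro l _
    rw [Finset.prod_ne_zero_iff]
    intro st hst
    rw [Finset.mem_offDiag] at hst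
    exact sub_ne_zero.mpr hst.2.2
  refine ⟨g₁ * g₂, mul_ne_zero h1 h2, fun 𝔪 hmax hgm p hp hpm => ?_⟩
  have hg1 : g₁ ∉ 𝔪 := fun h => hgm (𝔪.mul_mem_right _ h)
  have hg2 : g₂ ∉ 𝔪 := fun h => hgm (𝔪.mul_mem_left _ h)
  let ifld : Field (R ⧸ 𝔪) := Ideal.Quotient.field 𝔪
  have hcp : CharP (R ⧸ 𝔪) p := Pool.Agent.TH295.FO.charP_quot' 𝔪 hp hpm
  let K := AlgebraicClosure (R ⧸ 𝔪)
  let ψ : R ⧸ 𝔪 →+* K := algebraMap (R ⧸ 𝔪) K
  have hcK : CharP K p := charP_of_injective_algebraMap ψ.injective p
  have hz0 : ∀ x : R, (ψ.comp (Ideal.Quotient.mk 𝔪)) x = 0 → x ∈ 𝔪 := by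
    intro x hx
    rw [RingHom.comp_apply, map_eq_zero_iff ψ ψ.injective, Ideal.Quotient.eq_zero_iff_mem] at hx
    exact hx
  have key := loc hp (ψ.comp (Ideal.Quotient.mk 𝔪)) T N i hflat δ hTd hNd Z ?_ ?_
  · rw [Fintype.card_fin] at key
    obtain ⟨k1, k2⟩ := key
    have hmm : ∀ M : Matrix (Fin n) (Fin n) (MvPolynomial ι R),
        M.map (MvPolynomial.map (ψ.comp (Ideal.Quotient.mk 𝔪))) =
          (M.map (MvPolynomial.map (Ideal.Quotient.mk 𝔪))).map (MvPolynomial.map ψ) := by
      intro M
      ext1 x y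
      simp only [Matrix.map_apply]
      rw [MvPolynomial.map_map]
    have hinjp : Function.Injective (MvPolynomial.map ψ : MvPolynomial ι (R ⧸ 𝔪) →+* _) :=
      MvPolynomial.map_injective ψ ψ.injective
    refine ⟨fun hc h => ?_, fun hc h => ?_⟩
    · have h3 := k1 hc (fun z hz => by
        have h4 := h z hz
        ext1 x y
        have h5 := congrFun (congrFun h4 x) y
        rw [Matrix.map_apply, Matrix.zero_apply] at h5 ⊢
        rw [RingHom.comp_apply, h5, map_zero])
      rw [hmm] at h3
      ext1 x y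
      have h4 := congrFun (congrFun h3 x) y
      rw [Matrix.map_apply, Matrix.zero_apply] at h4
      rw [Matrix.zero_apply]
      exact (map_eq_zero_iff _ hinjp).mp h4
    · have h3 := k2 hc (fun z hz => by
        have h4 := (h z hz).map (ψ.mapMatrix : Matrix (Fin n) (Fin n) (R ⧸ 𝔪) →+* _)
        exact h4)
      rw [hmm] at h3
      obtain ⟨m, hm⟩ := h3
      refine ⟨m, ?_⟩
      have h4 : ((mcurv i (T i) (N i) p).map (MvPolynomial.map (Ideal.Quotient.mk 𝔪)) ^ m).map
          (MvPolynomial.map ψ) = 0 := by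
        rw [← hm]
        exact ((MvPolynomial.map ψ).mapMatrix : Matrix (Fin n) (Fin n) _ →+* _).map_pow _ m
      ext1 x y
      have h5 := congrFun (congrFun h4 x) y
      rw [Matrix.map_apply, Matrix.zero_apply] at h5
      rw [Matrix.zero_apply]
      exact (map_eq_zero_iff _ hinjp).mp h5
  · intro l s hs t ht hst
    by_contra hne
    apply hg2
    have h3 : s - t ∈ 𝔪 := by
      apply hz0
      rw [map_sub, hst, sub_self]
    rw [hg₂, ← Finset.mul_prod_erase _ _ (Finset.mem_univ l)]
    apply 𝔪.mul_mem_right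
    have h4 : ((s, t) : R × R) ∈ (Z l).offDiag := Finset.mem_offDiag.mpr ⟨hs, ht, hne⟩
    rw [← Finset.mul_prod_erase _ _ h4]
    exact 𝔪.mul_mem_right _ h3
  · intro z hz l h0
    apply hg1
    have h3 := hz0 _ h0
    have h4 : z ∈ S := by rw [hS, Fintype.mem_piFinset]; exact hz
    rw [hg₁, ← Finset.mul_prod_erase _ _ h4]
    apply 𝔪.mul_mem_right
    rw [← Finset.mul_prod_erase _ _ (Finset.mem_univ l)]
    exact 𝔪.mul_mem_right _ h3

end Pool.Agent.X98.GP
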