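import Pool.Agent.X98.GP.Horiz

set_option autoImplicit false
set_option linter.unusedSectionVars false

/-!
# Matrices which are horizontal in characteristic p and vanish on a grid
-/

namespace Pool.Agent.X98.GP

open Pool.Agent.X98.KZ MvPolynomial

variable {ι : Type*} [Fintype ι] [DecidableEq ι] {r : Type*} [Fintype r] [DecidableEq r]

/-- Restriction to a line. -/
noncomputable def ln {k : Type*} [CommRing k] (i : ι) (u : ι → k) :
    MvPolynomial ι k →ₐ[k] Polynomial k :=
  aeval (fun l => if l = i then Polynomial.X else Polynomial.C (u l))

lemma ln_deriv {k : Type*} [CommRing k] (i : ι) (u : ι → k) (f : MvPolynomial ι k) :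
    Polynomial.derivative (ln i u f) = ln i u (pderiv i f) := by
  induction f using MvPolynomial.induction_on with
  | C c =>
    have h1 : ln i u (C c) = Polynomial.C c := aeval_C _ _
    rw [pderiv_C, map_zero, h1, Polynomial.derivative_C]
  | add f g hf hg => simp only [map_add, hf, hg]
  | mul_X f j hf =>
    have h2 : ln i u (X j) = if j = i then Polynomial.X else Polynomial.C (u j) := aeval_X _ _
    have h3 : ln i u (f * X j) = ln i u f * (if j = i then Polynomial.X else Polynomial.C (u j)) := by
      rw [map_mul, h2]
    rw [h3, Derivation.leibniz, Polynomial.derivative_mul, hf]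
    simp only [smul_eq_mul, map_add, map_mul, h2]
    by_cases hij : j = i
    · subst hij
      rw [if_pos rfl, Polynomial.derivative_X, pderiv_X_self, map_one]
      ring
    · rw [if_neg hij, Polynomial.derivative_C, pderiv_X_of_ne hij, map_zero]
      ring

lemma ln_eval {k : Type*} [CommRing k] (i : ι) (u : ι → k) (t : k) (f : MvPolynomial ι k) :
    (ln i u f).eval t = eval (Function.update u i t) f := by
  have h2 : (Polynomial.evalRingHom t).comp (ln i u : MvPolynomial ι k →+* Polynomial k) =
      eval (Function.update u i t) := by
    apply MvPolynomial.ringHom_ext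
    · intro c
      rw [RingHom.comp_apply, eval_C]
      show Polynomial.eval t (ln i u (C c)) = c
      rw [ln, aeval_C]
      exact Polynomial.eval_C
    · intro j
      rw [RingHom.comp_apply, eval_X]
      show Polynomial.eval t (ln i u (X j)) = _
      rw [ln, aeval_X]
      by_cases hij : j = i
      · subst hij
        rw [if_pos rfl, Polynomial.eval_X, Function.update_self]
      · rw [if_neg hij, Polynomial.eval_C, Function.update_of_ne hij]
  exact congrArg (fun g : MvPolynomial ι k →+* k => g f) h2

lemma ln_natDegree {k : Type*} [CommRing k] (i : ι) (u : ι → k) (f : MvPolynomial ι k) :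
    (ln i u f).natDegree ≤ degreeOf i f := by
  conv_lhs => rw [f.as_sum, map_sum]
  refine Polynomial.natDegree_sum_le_of_forall_le _ _ fun α hα => ?_
  rw [ln, aeval_monomial]
  refine Polynomial.natDegree_mul_le.trans ?_
  have h1 : (algebraMap k (Polynomial k) (coeff α f)).natDegree = 0 := Polynomial.natDegree_C _
  rw [h1, zero_add, Finsupp.prod]
  refine (Polynomial.natDegree_prod_le _ _).trans ?_
  have h2 : ∀ l ∈ α.support, ((if l = i then Polynomial.X else Polynomial.C (u l) :
      Polynomial k) ^ α l).natDegree ≤ if l = i then α i else 0 := by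
    intro l _
    refine Polynomial.natDegree_pow_le.trans ?_
    by_cases hl : l = i
    · subst hl
      rw [if_pos rfl, if_pos rfl]
      exact (Nat.mul_le_mul_left _ Polynomial.natDegree_X_le).trans (mul_one _).le
    · rw [if_neg hl, if_neg hl, Polynomial.natDegree_C, mul_zero]
  refine (Finset.sum_le_sum h2).trans ?_
  have h3 : ∑ l ∈ α.support, (if l = i then α i else 0) ≤ α i := by
    rw [Finset.sum_ite_eq']
    split_ifs
    · exact le_rfl
    · exact Nat.zero_le _
  exact h3.trans (degreeOf_le_iff.mp le_rfl α hα)

/-- The order of a zero of a horizontal matrix. -/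
lemma order_p {k : Type*} [Field k] {p : ℕ} [CharP k p] (T : Polynomial k)
    (N Q : Matrix r r (Polynomial k))
    (h : ∀ a b, T * Polynomial.derivative (Q a b) = (N * Q - Q * N) a b) (t : k)
    (hT : T.eval t ≠ 0) (h0 : ∀ a b, (Q a b).eval t = 0) (a b : r) :
    (Polynomial.X - Polynomial.C t) ^ p ∣ Q a b := by
  set L : Polynomial k := Polynomial.X - Polynomial.C t with hL
  have hL0 : L ≠ 0 := Polynomial.X_sub_C_ne_zero t
  have key : ∀ m, m ≤ p → ∀ a b, L ^ m ∣ Q a b := by
    intro m
    induction m with
    | zero => intro _ a b; rw [pow_zero]; exact one_dvd _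
    | succ m ih =>
      intro hm
      choose G hG using ih (by omega)
      intro a b
      rcases Nat.eq_zero_or_pos m with hm0 | hm0
      · rw [hm0, zero_add, pow_one]
        exact Polynomial.dvd_iff_isRoot.mpr (h0 a b)
      have h1 := h a b
      have h2 : (N * Q - Q * N) a b = L ^ m * (N * Matrix.of G - Matrix.of G * N) a b := by
        simp only [Matrix.sub_apply, Matrix.mul_apply, Matrix.of_apply, mul_sub, Finset.mul_sum]
        congr 1
        · refine Finset.sum_congr rfl fun c _ => ?_
          rw [hG c b]; ring
        · refine Finset.sum_congr rfl fun c _ => ?_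
          rw [hG a c]; ring
      rw [h2, hG a b, Polynomial.derivative_mul, Polynomial.derivative_pow, hL,
        Polynomial.derivative_X_sub_C, ← hL, mul_one] at h1
      obtain ⟨q, rfl⟩ : ∃ q, m = q + 1 := ⟨m - 1, by omega⟩
      rw [Nat.add_sub_cancel] at h1
      have h3 : T * (Polynomial.C ((q + 1 : ℕ) : k) * G a b + L * Polynomial.derivative (G a b)) =
          L * (N * Matrix.of G - Matrix.of G * N) a b := by
        apply mul_left_cancel₀ (pow_ne_zero q hL0)
        linear_combination h1
      have h4 := congrArg (Polynomial.eval t) h3
      have hLt : L.eval t = 0 := by rw [hL]; simp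
      simp only [Polynomial.eval_mul, Polynomial.eval_add, hLt, Polynomial.eval_C, zero_mul,
        add_zero] at h4
      have h5 : ((q + 1 : ℕ) : k) ≠ 0 := by
        intro h6
        rw [CharP.cast_eq_zero_iff k p] at h6
        have := Nat.le_of_dvd (by omega) h6
        omega
      have h6 : (G a b).eval t = 0 :=
        (mul_eq_zero.mp ((mul_eq_zero.mp h4).resolve_left hT)).resolve_left h5
      obtain ⟨c, hc⟩ := Polynomial.dvd_iff_isRoot.mpr h6
      refine ⟨c, ?_⟩
      rw [hG a b, hc, pow_succ]
      ring
  exact key p le_rfl a b

/-- Too many zeros. -/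
lemma zero_of_zeros {k : Type*} [Field k] {p : ℕ} (hp : 0 < p) (Z : Finset k) (δ : ℕ)
    (hδ : δ < Z.card) (q : Polynomial k) (hq : q.natDegree ≤ p * δ)
    (h : ∀ t ∈ Z, (Polynomial.X - Polynomial.C t) ^ p ∣ q) : q = 0 := by
  by_contra hq0
  have h1 : (∏ t ∈ Z, (Polynomial.X - Polynomial.C t) ^ p) ∣ q := by
    apply Finset.prod_dvd_of_coprime
    · intro s _ t _ hst
      exact IsCoprime.pow (Polynomial.isCoprime_X_sub_C_of_isUnit_sub
        (isUnit_iff_ne_zero.mpr (sub_ne_zero.mpr hst)))
    · exact h
  have h2 := Polynomial.natDegree_le_of_dvd h1 hq0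
  rw [Polynomial.natDegree_prod_of_monic _ _ fun t _ => (Polynomial.monic_X_sub_C t).pow p] at h2
  simp only [Polynomial.natDegree_pow, Polynomial.natDegree_X_sub_C, mul_one, Finset.sum_const,
    smul_eq_mul] at h2
  have h3 : Z.card * p ≤ p * δ := h2.trans hq
  have h4 : p * δ < p * Z.card := Nat.mul_lt_mul_of_pos_left hδ hp
  rw [mul_comm] at h3
  omega

/-- The polynomial statement. -/
theorem grid {K : Type*} [Field K] [Infinite K] {p : ℕ} (hp : p.Prime) [CharP K p]
    (T : ι → MvPolynomial ι K) (N : ι → Matrix r r (MvPolynomial ι K))
    (Q : Matrix r r (MvPolynomial ι K))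
    (hor : ∀ l, T l • Q.map (pderiv l) = N l * Q - Q * N l) (δ : ι → ℕ)
    (hdeg : ∀ l a b, degreeOf l (Q a b) ≤ p * δ l) (Z : ι → Finset K)
    (hZ : ∀ l, δ l < (Z l).card)
    (hT : ∀ z : ι → K, (∀ l, z l ∈ Z l) → ∀ l, eval z (T l) ≠ 0)
    (h0 : ∀ z : ι → K, (∀ l, z l ∈ Z l) → ∀ a b, eval z (Q a b) = 0) : Q = 0 := by
  have hne : ∀ l, (Z l).Nonempty := fun l => Finset.card_pos.mp (by have := hZ l; omega)
  choose z₀ hz₀ using hne
  have claim : ∀ J : Finset ι, ∀ v : ι → K, (∀ l, l ∉ J → v l ∈ Z l) →
      ∀ a b, eval v (Q a b) = 0 := by
    intro J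
    induction J using Finset.induction_on with
    | empty => exact fun v hv => h0 v fun l => hv l (Finset.notMem_empty l)
    | insert i J hi ih =>
      intro v hv a b
      set σ : MvPolynomial ι K →ₐ[K] MvPolynomial ι K :=
        aeval (fun l => if l ∈ insert i J then X l else C (v l)) with hσ
      set ρ : K → (MvPolynomial ι K →ₐ[K] MvPolynomial ι K) := fun t =>
        aeval (fun l => if l = i then C t else X l) with hρ
      have hσe : ∀ (u' : ι → K) (f : MvPolynomial ι K), eval u' (σ f) =
          eval (fun l => if l ∈ insert i J then u' l else v l) f := by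
        intro u' f
        have h2 : (eval u').comp (σ : MvPolynomial ι K →+* MvPolynomial ι K) =
            eval (fun l => if l ∈ insert i J then u' l else v l) := by
          apply MvPolynomial.ringHom_ext
          · intro c
            simp
          · intro j
            rw [RingHom.comp_apply, eval_X]
            show eval u' (σ (X j)) = _
            rw [hσ, aeval_X]
            split_ifs <;> simp
        exact congrArg (fun g : MvPolynomial ι K →+* K => g f) h2
      have hρe : ∀ (t : K) (u : ι → K) (f : MvPolynomial ι K), eval u (ρ t f) =
          eval (Function.update u i t) f := by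
        intro t u f
        have h2 : (eval u).comp (ρ t : MvPolynomial ι K →+* MvPolynomial ι K) =
            eval (Function.update u i t) := by
          apply MvPolynomial.ringHom_ext
          · intro c
            simp
          · intro j
            rw [RingHom.comp_apply, eval_X]
            show eval u (ρ t (X j)) = _
            simp only [hρ]
            rw [aeval_X]
            by_cases hj : j = i
            · subst hj
              rw [if_pos rfl, eval_C, Function.update_self]
            · rw [if_neg hj, eval_X, Function.update_of_ne hj]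
        exact congrArg (fun g : MvPolynomial ι K →+* K => g f) h2
      have hG : σ (Q a b) * ∏ t ∈ Z i, σ (ρ t (T i)) = 0 := by
        apply MvPolynomial.funext
        intro u'
        rw [map_mul, map_prod, map_zero]
        set u : ι → K := fun l => if l ∈ insert i J then u' l else v l with hu
        have e1 : ∀ t, eval u' (σ (ρ t (T i))) = eval (Function.update u i t) (T i) := by
          intro t
          rw [hσe, hρe]
        rw [hσe, Finset.prod_congr rfl fun t _ => e1 t, ← hu]
        by_cases hprod : ∏ t ∈ Z i, eval (Function.update u i t) (T i) = 0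
        · rw [hprod, mul_zero]
        · have hprod := Finset.prod_ne_zero_iff.mp hprod
          have hup : ∀ t ∈ Z i, ∀ l, l ∉ J → Function.update u i t l ∈ Z l := by
            intro t ht l hl
            by_cases hli : l = i
            · subst hli
              rw [Function.update_self]
              exact ht
            · rw [Function.update_of_ne hli]
              have h3 : l ∉ insert i J := by
                rw [Finset.mem_insert]
                push Not
                exact ⟨hli, hl⟩
              rw [hu]
              simp only [if_neg h3]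
              exact hv l h3
          have hq : ln i u (Q a b) = 0 := by
            refine zero_of_zeros (p := p) hp.pos (Z i) (δ i) (hZ i) _
              ((ln_natDegree i u _).trans (hdeg i a b)) fun t ht => ?_
            refine order_p (ln i u (T i)) ((N i).map (ln i u)) (Q.map (ln i u)) ?_ t ?_ ?_ a b
            · intro a b
              have h3 := congrArg (ln i u) (congrFun (congrFun (hor i) a) b)
              rw [Matrix.smul_apply, Matrix.map_apply, smul_eq_mul, map_mul] at h3
              rw [Matrix.map_apply, ln_deriv, h3, Matrix.sub_apply, map_sub, Matrix.sub_apply,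
                ← Matrix.map_mul, ← Matrix.map_mul]
              rfl
            · rw [ln_eval]
              exact hprod t ht
            · intro a b
              rw [Matrix.map_apply, ln_eval]
              exact ih _ (hup t ht) a b
          have h3 : eval u (Q a b) = 0 := by
            have h4 := ln_eval i u (u i) (Q a b)
            rw [hq, Polynomial.eval_zero, Function.update_eq_self] at h4
            exact h4.symm
          rw [h3, zero_mul]
      rcases mul_eq_zero.mp hG with h1 | h1
      · have h2 := hσe v (Q a b)
        rw [h1, map_zero] at h2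
        have h3 : (fun l => if l ∈ insert i J then v l else v l) = v := by
          funext l
          split_ifs <;> rfl
        rw [h3] at h2
        exact h2.symm
      · exfalso
        rw [Finset.prod_eq_zero_iff] at h1
        obtain ⟨t, ht, h1⟩ := h1
        have h2 := hσe z₀ (ρ t (T i))
        rw [h1, map_zero, hρe] at h2
        refine hT _ ?_ i h2.symm
        intro l
        by_cases hli : l = i
        · subst hli
          rw [Function.update_self]
          exact ht
        · rw [Function.update_of_ne hli]
          show (if l ∈ insert i J then z₀ l else v l) ∈ Z l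
          split_ifs with h3
          · exact hz₀ l
          · exact hv l h3
  ext1 a b
  apply MvPolynomial.funext
  intro v
  rw [claim Finset.univ v (fun l hl => absurd (Finset.mem_univ l) hl) a b, Matrix.zero_apply,
    map_zero]

/-! ### Degrees -/

lemma degreeOf_pderiv {k : Type*} [CommRing k] (i l : ι) (f : MvPolynomial ι k)
    (m : ι →₀ ℕ) (hm : m ∈ (pderiv i f).support) :
    m l + (if l = i then 1 else 0) ≤ degreeOf l f := by
  rw [mem_support_iff, coeff_pderiv] at hm
  have h1 : m + Finsupp.single i 1 ∈ f.support := by
    rw [mem_support_iff]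
    intro h0
    rw [h0, zero_mul] at hm
    exact hm rfl
  have h2 := (degreeOf_le_iff (n := l)).mp le_rfl _ h1
  rw [Finsupp.add_apply] at h2
  by_cases hl : l = i
  · subst hl
    rw [Finsupp.single_eq_same] at h2
    rw [if_pos rfl]
    exact h2
  · rw [if_neg hl]
    rw [Finsupp.single_eq_of_ne hl] at h2
    exact h2

lemma degree_mul_pderiv {k : Type*} [CommRing k] (i l : ι) (T f : MvPolynomial ι k) (δ d : ℕ)
    (hT : degreeOf l T ≤ δ + if l = i then 1 else 0) (hf : degreeOf l f ≤ d) :
    degreeOf l (T * pderiv i f) ≤ δ + d := by
  by_cases h0 : pderiv i f = 0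
  · rw [h0, mul_zero, degreeOf_zero]
    exact Nat.zero_le _
  · refine (degreeOf_mul_le _ _ _).trans ?_
    have h1 : degreeOf l (pderiv i f) + (if l = i then 1 else 0) ≤ d := by
      obtain ⟨m, hm⟩ := Finset.nonempty_iff_ne_empty.mpr
        (fun h => h0 (support_eq_empty.mp h))
      have h2 : (if l = i then 1 else 0) ≤ d :=
        le_trans (le_trans (Nat.le_add_left _ _) (degreeOf_pderiv i l f m hm)) hf
      have h3 : degreeOf l (pderiv i f) ≤ d - (if l = i then 1 else 0) := by
        rw [degreeOf_le_iff]
        intro m hm
        have := (degreeOf_pderiv i l f m hm).trans hf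
        omega
      omega
    omega

lemma degree_mcurv {k : Type*} [CommRing k] (i l : ι) (T : MvPolynomial ι k)
    (N : Matrix r r (MvPolynomial ι k)) (δ : ℕ)
    (hT : degreeOf l T ≤ δ + if l = i then 1 else 0) (hN : ∀ a b, degreeOf l (N a b) ≤ δ)
    (j : ℕ) (a b : r) : degreeOf l (mcurv i T N j a b) ≤ j * δ := by
  induction j generalizing a b with
  | zero =>
    rw [mcurv, Matrix.one_apply]
    split_ifs
    · rw [degreeOf_one]; exact Nat.zero_le _
    · rw [degreeOf_zero]; exact Nat.zero_le _
  | succ j ih =>
    rw [mcurv, Matrix.sub_apply, Matrix.sub_apply, Matrix.smul_apply, Matrix.smul_apply,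
      Matrix.map_apply, Matrix.mul_apply, smul_eq_mul, smul_eq_mul]
    have hsub : ∀ f g : MvPolynomial ι k, degreeOf l (f - g) ≤ max (degreeOf l f) (degreeOf l g) := by
      intro f g
      rw [sub_eq_add_neg]
      refine (degreeOf_add_le _ _ _).trans ?_
      have : degreeOf l (-g) = degreeOf l g := by
        rw [degreeOf_eq_sup, degreeOf_eq_sup, support_neg]
      rw [this]
    have e : (j + 1) * δ = δ + j * δ := by ring
    refine (hsub _ _).trans (max_le ((hsub _ _).trans (max_le ?_ ?_)) ?_)
    · rw [e]
      exact degree_mul_pderiv i l T _ δ (j * δ) hT (ih a b)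
    · refine (degreeOf_mul_le _ _ _).trans ?_
      have h1 : degreeOf l ((j : MvPolynomial ι k) * pderiv i T) ≤ δ := by
        refine (degreeOf_mul_le _ _ _).trans ?_
        have h2 : degreeOf l (j : MvPolynomial ι k) = 0 := by
          have : (j : MvPolynomial ι k) = C (j : k) := (map_natCast C j).symm
          rw [this, degreeOf_C]
        rw [h2, zero_add, degreeOf_le_iff]
        intro m hm
        have := (degreeOf_pderiv i l T m hm).trans hT
        omega
      rw [e]
      exact Nat.add_le_add h1 (ih a b)
    · refine (degreeOf_sum_le _ _ _).trans (Finset.sup_le fun c _ => ?_)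
      refine (degreeOf_mul_le _ _ _).trans ?_
      rw [e]
      exact Nat.add_le_add (hN a c) (ih c b)

end Pool.Agent.X98.GP
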