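import Pool.Agent.X98.KZ.Point

set_option autoImplicit false
set_option linter.unusedSectionVars false

/-!
# Horizontality of the p-curvature of an integrable connection
-/

namespace Pool.Agent.X98.GP

open Pool.Agent.X98.KZ MvPolynomial

variable {ι : Type*} [Fintype ι] [DecidableEq ι] {r : Type*} [Fintype r] [DecidableEq r]

/-- `T ^ j ∇ ^ j (1)` for `∇ = ∂ / ∂ x_i - N / T`. -/
noncomputable def mcurv {k : Type*} [CommRing k] (i : ι) (T : MvPolynomial ι k)
    (N : Matrix r r (MvPolynomial ι k)) : ℕ → Matrix r r (MvPolynomial ι k)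
  | 0 => 1
  | j + 1 => T • (mcurv i T N j).map (pderiv i) -
      ((j : MvPolynomial ι k) * pderiv i T) • mcurv i T N j - N * mcurv i T N j

/-- The operators `∂ / ∂ x_i - N i / T i` and `∂ / ∂ x_l - N l / T l` commute. -/
def Flat {k : Type*} [CommRing k] (T : ι → MvPolynomial ι k)
    (N : ι → Matrix r r (MvPolynomial ι k)) (i l : ι) : Prop :=
  (T i ^ 2) • (T l • (N l).map (pderiv i) - pderiv i (T l) • N l) -
    (T l ^ 2) • (T i • (N i).map (pderiv l) - pderiv l (T i) • N i) =
    (T i * T l) • (N i * N l - N l * N i)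

/-! ### Power series -/

lemma coeff_iter_pderiv {k : Type*} [CommRing k] (i : ι) (j : ℕ) (α : ι →₀ ℕ)
    (f : MvPowerSeries ι k) : MvPowerSeries.coeff α ((⇑(MvPowerSeries.pderiv k i))^[j] f) =
      ((α i + 1).ascFactorial j : k) * MvPowerSeries.coeff (α + Finsupp.single i j) f := by
  induction j generalizing α with
  | zero => simp
  | succ j ih =>
    rw [Function.iterate_succ_apply', MvPowerSeries.coeff_pderiv, ih]
    have h1 : (α + Finsupp.single i 1 : ι →₀ ℕ) i = α i + 1 := by
      rw [Finsupp.add_apply, Finsupp.single_eq_same]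
    have h2 : (α i + 1).ascFactorial (j + 1) = (α i + 1) * (α i + 1 + 1).ascFactorial j := by
      rw [Nat.succ_ascFactorial (α i + 1) j, Nat.ascFactorial_succ]
    have h3 : α + Finsupp.single i 1 + Finsupp.single i j = α + Finsupp.single i (j + 1) := by
      rw [add_assoc, ← Finsupp.single_add, add_comm 1 j]
    rw [h1, h2, h3]
    push_cast
    ring

lemma iter_pderiv {k : Type*} [Field k] {p : ℕ} (hp : p.Prime) [CharP k p] (i : ι)
    (f : MvPowerSeries ι k) : (⇑(MvPowerSeries.pderiv k i))^[p] f = 0 := by
  ext α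
  rw [coeff_iter_pderiv, map_zero]
  have h1 : (((α i + 1).ascFactorial p : ℕ) : k) = 0 := by
    rw [CharP.cast_eq_zero_iff k p]
    exact (Nat.dvd_factorial hp.pos le_rfl).trans (Nat.factorial_dvd_ascFactorial _ _)
  rw [h1, zero_mul]

/-- The expansion at a point. -/
noncomputable def tau {k : Type*} [CommRing k] (P : ι → k) :
    MvPolynomial ι k →ₐ[k] MvPowerSeries ι k := aeval (U P)

lemma tau_pderiv {k : Type*} [CommRing k] (P : ι → k) (i : ι) (f : MvPolynomial ι k) :
    tau P (pderiv i f) = MvPowerSeries.pderiv k i (tau P f) := by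
  induction f using MvPolynomial.induction_on with
  | C c =>
    have h1 : tau P (C c) = algebraMap k _ c := aeval_C _ _
    rw [pderiv_C, map_zero, h1, Derivation.map_algebraMap]
  | add f g hf hg => simp only [map_add, hf, hg]
  | mul_X f j hf =>
    have h2 : tau P (X j) = U P j := aeval_X _ _
    have h3 : tau P (f * X j) = tau P f * U P j := by rw [map_mul, h2]
    rw [h3, Derivation.leibniz, Derivation.leibniz, pderiv_U, ← hf]
    simp only [smul_eq_mul, map_add, map_mul, h2]
    congr 1
    by_cases hij : j = i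
    · subst hij
      rw [pderiv_X_self, map_one, if_pos rfl]
    · rw [pderiv_X_of_ne hij, map_zero, if_neg hij]

lemma tau_inj {k : Type*} [CommRing k] (P : ι → k) : Function.Injective (tau P) := by
  intro f g hfg
  have h1 : aeval (fun j => (X j + C (P j) : MvPolynomial ι k)) f =
      aeval (fun j => (X j + C (P j) : MvPolynomial ι k)) g := by
    apply MvPolynomial.coe_injective
    rw [← tau_coe, ← tau_coe]
    exact hfg
  have h2 : (aeval (fun j => (X j + C (-P j) : MvPolynomial ι k))).comp
      (aeval (fun j => (X j + C (P j) : MvPolynomial ι k))) = AlgHom.id k (MvPolynomial ι k) := by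
    apply MvPolynomial.algHom_ext
    intro j
    simp
  have h3 := congrArg (aeval (fun j => (X j + C (-P j) : MvPolynomial ι k))) h1
  have h4 : ∀ f, aeval (fun j => (X j + C (-P j) : MvPolynomial ι k))
      (aeval (fun j => (X j + C (P j) : MvPolynomial ι k)) f) = f := fun f =>
    congrArg (fun g : MvPolynomial ι k →ₐ[k] MvPolynomial ι k => g f) h2
  rwa [h4, h4] at h3

lemma constantCoeff_tau {k : Type*} [CommRing k] (P : ι → k) (f : MvPolynomial ι k) :
    MvPowerSeries.constantCoeff (tau P f) = eval P f := by
  have h2 : (MvPowerSeries.constantCoeff : MvPowerSeries ι k →+* k).comp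
      (tau P : MvPolynomial ι k →+* MvPowerSeries ι k) = eval P := by
    apply MvPolynomial.ringHom_ext
    · intro c
      rw [RingHom.comp_apply, eval_C]
      show MvPowerSeries.constantCoeff (tau P (C c)) = c
      rw [tau, aeval_C]
      exact MvPowerSeries.constantCoeff_C _
    · intro j
      rw [RingHom.comp_apply, eval_X]
      show MvPowerSeries.constantCoeff (tau P (X j)) = P j
      rw [tau, aeval_X, U]
      simp
  exact congrArg (fun g : MvPolynomial ι k →+* k => g f) h2

/-- The operator. -/
noncomputable def nab {S : Type*} [CommRing S] {R : Type*} [CommRing R] [Algebra R S]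
    (D : Derivation R S S) (A Y : Matrix r r S) : Matrix r r S := Y.map D - A * Y

section abs

variable {R S : Type*} [CommRing R] [CommRing S] [Algebra R S]

lemma nab_add (D : Derivation R S S) (A Y Z : Matrix r r S) :
    nab D A (Y + Z) = nab D A Y + nab D A Z := by
  rw [nab, nab, nab, Matrix.map_add _ (map_add _), mul_add]
  abel

lemma nab_zero (D : Derivation R S S) (A : Matrix r r S) : nab D A 0 = 0 := by
  rw [nab, mul_zero, sub_zero]
  ext1 a b
  simp

lemma nab_mul (D : Derivation R S S) (A Y Z : Matrix r r S) :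
    nab D A (Y * Z) = nab D A Y * Z + Y * Z.map D := by
  rw [nab, nab, mat_leibniz D]
  rw [sub_mul, mul_assoc]
  abel

lemma map_one_zero (D : Derivation R S S) : (1 : Matrix r r S).map D = 0 := by
  ext1 a b
  rw [Matrix.map_apply, Matrix.one_apply, Matrix.zero_apply]
  split_ifs <;> simp

/-- The p-curvature is horizontal. -/
theorem horiz_abs (D E : Derivation R S S) {p : ℕ} (hp : p.Prime) (hS : (p : S) = 0)
    (hDE : ∀ f, D (E f) = E (D f)) (hDp : ∀ f, (⇑D)^[p] f = 0) (A B : Matrix r r S)
    (hflat : B.map D - A.map E = A * B - B * A) :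
    ((nab D A)^[p] 1).map E = B * (nab D A)^[p] 1 - (nab D A)^[p] 1 * B := by
  have hcomm : ∀ Y, nab E B (nab D A Y) = nab D A (nab E B Y) := by
    intro Y
    have hm : (Y.map D).map E = (Y.map E).map D := by
      ext1 a b
      rw [Matrix.map_apply, Matrix.map_apply, Matrix.map_apply, Matrix.map_apply, hDE]
    have hs : ∀ (F : Derivation R S S) (P Q : Matrix r r S), (P - Q).map F = P.map F - Q.map F := by
      intro F P Q
      ext1 a b
      simp
    have h2 : B.map D * Y - A.map E * Y = A * B * Y - B * A * Y := by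
      rw [← sub_mul, hflat, sub_mul]
    simp only [nab]
    rw [hs, hs, mat_leibniz, mat_leibniz, hm, mul_sub, mul_sub, ← mul_assoc, ← mul_assoc]
    have h3 : B.map D * Y = A.map E * Y + A * B * Y - B * A * Y := by
      rw [add_sub_assoc, ← h2]; abel
    rw [h3]
    abel
  have hiter : ∀ m Y, nab E B ((nab D A)^[m] Y) = (nab D A)^[m] (nab E B Y) := by
    intro m
    induction m with
    | zero => intro Y; rfl
    | succ m ih =>
      intro Y
      rw [Function.iterate_succ_apply, Function.iterate_succ_apply, ih, hcomm]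
  have h1 := hiter p 1
  have h2 : nab E B 1 = 1 * (-B) := by
    rw [nab, map_one_zero, mul_one, zero_sub, one_mul]
  have hpM : (p : Matrix r r S) = 0 := by
    have : ((p : ℕ) : Matrix r r S) = Matrix.diagonal fun _ => (p : S) := by
      rw [← Matrix.diagonal_natCast]
    rw [this, hS, Matrix.diagonal_zero]
  have h3 : (fun Y : Matrix r r S => Y.map D)^[p] (-B) = 0 := by
    have h : ∀ j (Y : Matrix r r S), (fun Y : Matrix r r S => Y.map D)^[j] Y =
        Y.map ((⇑D)^[j]) := by
      intro j
      induction j with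
      | zero => intro Y; ext1 a b; rfl
      | succ j ih =>
        intro Y
        rw [Function.iterate_succ_apply, ih]
        ext1 a b
        rw [Matrix.map_apply, Matrix.map_apply, Matrix.map_apply, Function.iterate_succ_apply]
    rw [h]
    ext1 a b
    rw [Matrix.map_apply, hDp, Matrix.zero_apply]
  rw [h2, iter_leibniz_char (nab D A) (fun Y : Matrix r r S => Y.map D) (nab_add D A)
    (nab_zero D A) (nab_mul D A) hp hpM, h3, mul_zero, add_zero, nab, mul_neg,
    sub_eq_iff_eq_add] at h1
  rw [h1]
  abel

end abs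

section flat

variable {k : Type*} [Field k] {p : ℕ} [CharP k p]

lemma tau_mcurv (P : ι → k) (i : ι) (T : MvPolynomial ι k) (N : Matrix r r (MvPolynomial ι k))
    (a' : MvPowerSeries ι k) (ha : a' * tau P T = 1) (j : ℕ) :
    (mcurv i T N j).map (tau P) =
      (tau P T) ^ j • (nab (MvPowerSeries.pderiv k i) (a' • N.map (tau P)))^[j] 1 := by
  induction j with
  | zero =>
    rw [mcurv, Matrix.map_one _ (map_zero _) (map_one _), pow_zero, one_smul]; rfl
  | succ j ih =>
    rw [Function.iterate_succ_apply']
    set Cj := (nab (MvPowerSeries.pderiv k i) (a' • N.map (tau P)))^[j] 1 with hCj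
    have h1 : (mcurv i T N (j + 1)).map (tau P) = tau P T •
        ((mcurv i T N j).map (tau P)).map (MvPowerSeries.pderiv k i) -
        ((j : MvPowerSeries ι k) * MvPowerSeries.pderiv k i (tau P T)) •
          (mcurv i T N j).map (tau P) -
        N.map (tau P) * (mcurv i T N j).map (tau P) := by
      rw [mcurv]
      have hs : ∀ (P' Q : Matrix r r (MvPolynomial ι k)), (P' - Q).map (tau P) =
          P'.map (tau P) - Q.map (tau P) := by
        intro P' Q
        ext1 a b
        simp
      have hm : ∀ (f : MvPolynomial ι k) (Q : Matrix r r (MvPolynomial ι k)),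
          (f • Q).map (tau P) = tau P f • Q.map (tau P) := by
        intro f Q
        ext1 a b
        simp
      rw [hs, hs, hm, hm, Matrix.map_mul, map_mul, map_natCast, tau_pderiv]
      congr 3
      ext1 a b
      simp only [Matrix.map_apply]
      rw [tau_pderiv]
    rw [h1, ih]
    set t := tau P T with ht
    set N' := N.map (tau P) with hN'
    rw [mat_smul (MvPowerSeries.pderiv k i), nab, Derivation.leibniz_pow, smul_mul_assoc, smul_sub,
      smul_add]
    have h2 : t • (j • t ^ (j - 1) • MvPowerSeries.pderiv k i t) • Cj =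
        ((j : MvPowerSeries ι k) * MvPowerSeries.pderiv k i t) • t ^ j • Cj := by
      rcases j with _ | j
      · simp
      · rw [smul_smul, smul_smul, Nat.add_sub_cancel]
        congr 1
        simp only [nsmul_eq_mul, smul_eq_mul]
        push_cast
        ring
    have h3 : t ^ (j + 1) • a' • (N' * Cj) = N' * t ^ j • Cj := by
      rw [smul_smul, mul_smul_comm]
      congr 1
      rw [pow_succ]
      linear_combination t ^ j * ha
    have h4 : t • t ^ j • Cj.map (MvPowerSeries.pderiv k i) =
        t ^ (j + 1) • Cj.map (MvPowerSeries.pderiv k i) := by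
      rw [smul_smul, ← pow_succ']
    rw [h2, h3, h4]
    abel

/-- The p-curvature is horizontal, for polynomials. -/
theorem horiz_mv (hp : p.Prime) (T : ι → MvPolynomial ι k)
    (N : ι → Matrix r r (MvPolynomial ι k)) (i l : ι) (hflat : Flat T N i l) (P : ι → k)
    (hi : eval P (T i) ≠ 0) (hl : eval P (T l) ≠ 0) :
    T l • (mcurv i (T i) (N i) p).map (pderiv l) =
      N l * mcurv i (T i) (N i) p - mcurv i (T i) (N i) p * N l := by
  set D := MvPowerSeries.pderiv k i (σ := ι) with hD
  set E := MvPowerSeries.pderiv k l (σ := ι) with hE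
  set a := tau P (T i) with ha
  set b := tau P (T l) with hb
  have ha' : a⁻¹ * a = 1 := MvPowerSeries.inv_mul_cancel _ (by rw [ha, constantCoeff_tau]; exact hi)
  have hb' : b⁻¹ * b = 1 := MvPowerSeries.inv_mul_cancel _ (by rw [hb, constantCoeff_tau]; exact hl)
  set a' := a⁻¹ with ha''
  set b' := b⁻¹ with hb''
  clear_value a' b'
  have hpS : (p : MvPowerSeries ι k) = 0 := by
    have : ((p : ℕ) : MvPowerSeries ι k) = algebraMap k _ (p : k) := (map_natCast _ _).symm
    rw [this, CharP.cast_eq_zero, map_zero]
  have hDa : ∀ (F : Derivation k (MvPowerSeries ι k) (MvPowerSeries ι k)) (c c' : MvPowerSeries ι k),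
      c' * c = 1 → F c' = -c' ^ 2 * F c := by
    intro F c c' hc
    have h1 := congrArg F hc
    rw [Derivation.leibniz, smul_eq_mul, smul_eq_mul, Derivation.map_one_eq_zero] at h1
    linear_combination c' * h1 - F c' * hc
  set NI := (N i).map (tau P) with hNI
  set NL := (N l).map (tau P) with hNL
  have hfl : (b' • NL).map D - (a' • NI).map E = (a' • NI) * (b' • NL) - (b' • NL) * (a' • NI) := by
    rw [mat_smul D, mat_smul E, hDa D b b' hb', hDa E a a' ha', smul_mul_smul_comm,
      smul_mul_smul_comm]
    ext1 x y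
    have h1 := congrArg (tau P) (congrFun (congrFun hflat x) y)
    simp only [Matrix.sub_apply, Matrix.smul_apply, Matrix.map_apply, smul_eq_mul, map_sub, map_mul,
      map_pow, tau_pderiv] at h1
    have h2 : tau P ((N i * N l) x y) = (NI * NL) x y := by
      rw [hNI, hNL, ← Matrix.map_mul, Matrix.map_apply]
    have h3 : tau P ((N l * N i) x y) = (NL * NI) x y := by
      rw [hNI, hNL, ← Matrix.map_mul, Matrix.map_apply]
    rw [h2, h3, ← ha, ← hb, ← hD, ← hE] at h1
    simp only [Matrix.sub_apply, Matrix.add_apply, Matrix.smul_apply, Matrix.map_apply, smul_eq_mul]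
    have h4 : NL x y = tau P (N l x y) := rfl
    have h5 : NI x y = tau P (N i x y) := rfl
    rw [h4, h5]
    set X' := D (tau P (N l x y))
    set Y' := tau P (N l x y)
    set Z' := E (tau P (N i x y))
    set W' := tau P (N i x y)
    set E1 := (NI * NL) x y
    set E2 := (NL * NI) x y
    set db := D b
    set da := E a
    linear_combination a' ^ 2 * b' ^ 2 * h1 +
      (-(b' * X' * (a' * a + 1) * (b' * b)) + b' ^ 2 * db * Y' * (a' * a + 1) + a' * Z' +
        a' * b' * (E1 - E2) * (b' * b)) * ha' +
      (-(b' * X') + a' * Z' * (b' * b + 1) * (a' * a) - a' ^ 2 * da * W' * (b' * b + 1) +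
        a' * b' * (E1 - E2)) * hb'
  have h1 := horiz_abs D E hp hpS (fun f => by rw [hD, hE, pderiv_comm])
    (fun f => iter_pderiv hp i f) _ _ hfl
  have h2 := tau_mcurv P i (T i) (N i) a' ha' p
  rw [← ha, ← hNI, ← hD] at h2
  set ψ := (nab D (a' • NI))^[p] 1 with hψ
  -- transfer
  have hinj : ∀ {M M' : Matrix r r (MvPolynomial ι k)}, M.map (tau P) = M'.map (tau P) → M = M' := by
    intro M M' h
    ext1 x y
    exact tau_inj P (congrFun (congrFun h x) y)
  apply hinj
  have h3 : (T l • (mcurv i (T i) (N i) p).map (pderiv l)).map (tau P) =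
      b • ((mcurv i (T i) (N i) p).map (tau P)).map E := by
    ext1 x y
    simp only [Matrix.map_apply, Matrix.smul_apply, smul_eq_mul, map_mul]
    rw [tau_pderiv]
  have h4 : (N l * mcurv i (T i) (N i) p - mcurv i (T i) (N i) p * N l).map (tau P) =
      NL * (mcurv i (T i) (N i) p).map (tau P) - (mcurv i (T i) (N i) p).map (tau P) * NL := by
    rw [hNL]
    ext1 x y
    rw [Matrix.map_apply, Matrix.sub_apply, map_sub, Matrix.sub_apply, ← Matrix.map_mul,
      ← Matrix.map_mul]
    rfl
  rw [h3, h4, h2, mat_smul E, Derivation.leibniz_pow, h1]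
  have h5 : (p • a ^ (p - 1) • E a) = 0 := by
    rw [nsmul_eq_mul, hpS, zero_mul]
  rw [h5, zero_smul, zero_add]
  simp only [smul_mul_assoc, mul_smul_comm, smul_sub, smul_smul]
  have h6 : b * (a ^ p * b') = a ^ p := by linear_combination a ^ p * hb'
  rw [h6]

end flat

end Pool.Agent.X98.GP
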